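import Pool.Agent.K3h48.HM.Fin

/-!
# MP_d2b80e_pr, Q1: hitting measures of Fuchsian groups converging to a lattice

Setting: subgroups `Γ_n` converging geometrically to a discrete group `Γ`, probability measures
`μ_n`, `μ` on them with finite supports `S_n → S` and converging weights (`IsData`); `h_n`, `h`
are the asymptotic entropies.

1. In every locally compact Hausdorff group without small subgroups all `k`-step entropies
   converge, `H(μ_n^{*k}) → H(μ^{*k})`, and the asymptotic entropy is upper semicontinuous:
   `limsup h_n ≤ h`. `PSL₂(ℝ)` is such a group.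
2. `asympEntropy`, defined as the infimum of `H(μ^{*k}) / k`, is the limit of this sequence.
3. So Q1 has a positive answer: from the known facts `ℓ_n → ℓ`, `v_n → v`, `h < ℓ v` (`Γ` is a
   nonuniform lattice) and the known criterion (if `h_n < ℓ_n v_n` then the hitting measure of
   `μ_n` and the Patterson–Sullivan measure of `Γ_n` are mutually singular) it follows that these
   measures are mutually singular for all large `n`. The convergence `h_n → h` is not needed.

Sketch. Let `V` be a compact neighbourhood of `1` with `Γ ∩ V = {1}`, contained in a neighbourhood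
without nontrivial subgroups, and `W` open with `W W ⊆ V`. The compact set `V ∖ W` misses `Γ`,
hence `Γ_n` for large `n`; if `g ≠ 1` is in `Γ_n ∩ W`, the first power of `g` outside `W` is in
`V ∖ W`, a contradiction. So `Γ_n ∩ W = {1}` for large `n`. Therefore two words in `S_n` that are
close to each other are equal, and words in `S` and the corresponding words in `S_n` satisfy the
same equalities (up to length `k`, for `n ≥ n(k)`), which gives convergence of the `k`-step
entropies; the asymptotic entropy is their infimum.
-/

set_option autoImplicit false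

open Filter Topology MeasureTheory

namespace Pool.Agent.Results.MP_d2b80e_pr.EntropySemicontinuity

open Pool.Agent.K3h48.HM

/-- **Theorem.** (1) Upper semicontinuity of the asymptotic entropy under geometric convergence in
locally compact groups without small subgroups; (2) `PSL₂(ℝ)` is such a group; (3) the asymptotic
entropy is a limit; (4) eventual singularity of the hitting measures with respect to the
Patterson–Sullivan measures, from `ℓ_n → ℓ`, `v_n → v`, `h < ℓ v` and the entropy criterion. -/
theorem result :
    -- (1) upper semicontinuity of the asymptotic entropy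
    (∀ (G : Type) [Group G] [TopologicalSpace G] [IsTopologicalGroup G] [LocallyCompactSpace G]
      [T2Space G], NSS G →
      ∀ (Γn : ℕ → Subgroup G) (Γ : Subgroup G) (μn : ℕ → MonoidAlgebra ℝ G)
        (μ : MonoidAlgebra ℝ G), IsData Γn Γ μn μ →
        (∀ k : ℕ, Tendsto (fun n => H (μn n ^ k)) atTop (𝓝 (H (μ ^ k)))) ∧
        ∀ ε > 0, ∀ᶠ n in atTop, asympEntropy (μn n) < asympEntropy μ + ε) ∧
    -- (2) `PSL₂(ℝ)` is a locally compact Hausdorff group without small subgroups
    (LocallyCompactSpace PSL ∧ T2Space PSL ∧ NSS PSL) ∧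
    -- (3) the asymptotic entropy is the limit of `H(μ^{*k}) / k`
    (∀ (G : Type) [Group G] (μ : MonoidAlgebra ℝ G), IsProb μ →
      Tendsto (fun k : ℕ => H (μ ^ k) / k) atTop (𝓝 (asympEntropy μ))) ∧
    -- (4) the answer to the question
    ∀ (Γn : ℕ → Subgroup PSL) (Γ : Subgroup PSL) (μn : ℕ → MonoidAlgebra ℝ PSL)
      (μ : MonoidAlgebra ℝ PSL), IsData Γn Γ μn μ →
      ∀ (ln : ℕ → ℝ) (l : ℝ) (vn : ℕ → ℝ) (v : ℝ) (ν κ : ℕ → Measure (OnePoint ℝ)),
        -- `ℓ_n`, `v_n`, `ν_n`, `κ_n`: drift, critical exponent, hitting and Patterson–Sullivan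
        -- measures for all large `n`; `ℓ`, `v`: drift and critical exponent of the limit
        (∀ᶠ n in atTop, IsDrift (μn n) (ln n) ∧ IsCritExp (Γn n) (vn n) ∧
          IsHitting (μn n) (ν n) ∧ IsPattersonSullivan (Γn n) (vn n) (κ n)) →
        IsDrift μ l → IsCritExp Γ v →
        -- known: continuity of drift and critical exponent, and `h < ℓ v`
        Tendsto ln atTop (𝓝 l) → Tendsto vn atTop (𝓝 v) → asympEntropy μ < l * v →
        -- known: the entropy criterion for singularity
        (∀ᶠ n in atTop, asympEntropy (μn n) < ln n * vn n → ν n ⟂ₘ κ n) →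
        ∀ᶠ n in atTop, ν n ⟂ₘ κ n := by
  refine ⟨?_, ⟨Pool.Agent.K3h99.HM.t_TOP.1, Pool.Agent.K3h99.HM.t_TOP.2,
    Pool.Agent.K3h57.HM.t_NSS⟩, ?_, ?_⟩
  · intro G _ _ _ _ _ hG Γn Γ μn μ D
    have h := tendsto_H hG Γn Γ D.discrete D.conv μn μ D.prob_n D.supp_n D.hausdorff D.weights
    refine ⟨h, fun ε hε => ?_⟩
    exact usc D.prob_n D.prob h (by linarith)
  · intro G _ μ hμ
    exact Pool.Agent.K3h64.HM.t_FEK G μ hμ
  · intro Γn Γ μn μ D ln l vn v ν κ _ _ _ hl hv hgap hcrit
    have : LocallyCompactSpace PSL := Pool.Agent.K3h99.HM.t_TOP.1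
    have : T2Space PSL := Pool.Agent.K3h99.HM.t_TOP.2
    have h := tendsto_H Pool.Agent.K3h57.HM.t_NSS Γn Γ D.discrete D.conv μn μ D.prob_n D.supp_n
      D.hausdorff D.weights
    obtain ⟨b, hb1, hb2⟩ := exists_between hgap
    filter_upwards [usc D.prob_n D.prob h hb1, (hl.mul hv).eventually_const_lt hb2, hcrit]
      with n h1 h2 h3
    exact h3 (h1.trans h2)

end Pool.Agent.Results.MP_d2b80e_pr.EntropySemicontinuity
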